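import Pool.Agent.Lib.helper22.CXEtrH
import Pool.Agent.Lib.lead.CXRat

namespace Pool.Agent.Results.MP_acf5a6_lc.Hard

open Pool.Agent.Lib.CX Pool.Agent.Lib.ER Finset

/-- a rational `d × d × d` array, `d` being the length of the list -/
def Cube (T : List (List (List ℚ))) : Prop := ∀ A ∈ T, A.length = T.length ∧ ∀ w ∈ A, w.length = T.length

/-- the entry `t_{ijk}` -/
def ent (T : List (List (List ℚ))) (i j k : ℕ) : ℚ := ((T.getD i []).getD j []).getD k 0

/-- `σ` is a singular value of `T` -/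
def TSV (T : List (List (List ℚ))) (σ : ℚ) : Prop :=
  ∃ x y z : Fin T.length → ℝ, ∑ i, x i ^ 2 = 1 ∧ ∑ i, y i ^ 2 = 1 ∧ ∑ i, z i ^ 2 = 1 ∧
    (∀ i, ∑ j, ∑ k, (ent T i.1 j.1 k.1 : ℝ) * y j * z k = σ * x i) ∧
    (∀ j, ∑ i, ∑ k, (ent T i.1 j.1 k.1 : ℝ) * x i * z k = σ * y j) ∧
    (∀ k, ∑ i, ∑ j, (ent T i.1 j.1 k.1 : ℝ) * x i * y j = σ * z k)

theorem lin {ι : Type} [Fintype ι] (b : ι → ℕ → ℝ) (D : ℕ) (v z : ℕ → ℝ) {C : ℝ}
    (hC : C = 1 + ∑ r, ∑ l ∈ range D, b r l * b r l) (hv : ∑ l ∈ range D, v l ^ 2 ≤ 1) (hz : ∑ l ∈ range D, z l ^ 2 = 1)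
    (h : ∀ k < D, C * v k - ∑ r, b r k * ∑ l ∈ range D, b r l * v l = C * z k) :
    (∀ r, ∑ l ∈ range D, b r l * v l = 0) ∧ ∑ l ∈ range D, v l ^ 2 = 1 := by
  set s : ι → ℝ := fun r => ∑ l ∈ range D, b r l * v l with hs
  have C1 : 1 ≤ C := by
    have : 0 ≤ ∑ r, ∑ l ∈ range D, b r l * b r l := sum_nonneg fun _ _ => sum_nonneg fun _ _ => mul_self_nonneg _
    linarith
  have w : ∀ k ∈ range D, ∑ r, b r k * s r = C * (v k - z k) := fun k hk => by linarith [h k (mem_range.1 hk)]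
  have e1 : ∑ k ∈ range D, C * (v k - z k) * v k = ∑ r, s r ^ 2 := by
    rw [← sum_congr rfl fun k hk => congrArg (· * v k) (w k hk)]
    simp only [sum_mul]
    rw [sum_comm]
    refine sum_congr rfl fun r _ => ?_
    rw [sq]
    nth_rewrite 2 [hs]
    rw [sum_mul]
    exact sum_congr rfl fun k _ => by ring
  have e2 : ∑ k ∈ range D, (C * (v k - z k)) ^ 2 ≤ (C - 1) * ∑ r, s r ^ 2 := by
    rw [← sum_congr rfl fun k hk => congrArg (· ^ 2) (w k hk), hC, add_sub_cancel_left, sum_comm, sum_mul]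
    exact sum_le_sum fun k _ => by simpa only [sq] using sum_mul_sq_le_sq_mul_sq univ (fun r => b r k) s
  have e3 : ∑ k ∈ range D, (C * (v k - z k)) ^ 2 = 2 * C * ∑ k ∈ range D, C * (v k - z k) * v k +
      C ^ 2 * (∑ l ∈ range D, z l ^ 2 - ∑ l ∈ range D, v l ^ 2) := by
    rw [← sum_sub_distrib, mul_sum, mul_sum, ← sum_add_distrib]
    exact sum_congr rfl fun k _ => by ring
  have S0 : 0 ≤ ∑ r, s r ^ 2 := sum_nonneg fun _ _ => sq_nonneg _
  rw [e3, e1, hz] at e2
  have p : 0 ≤ C ^ 2 * (1 - ∑ l ∈ range D, v l ^ 2) := mul_nonneg (sq_nonneg _) (by linarith)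
  have S : ∑ r, s r ^ 2 = 0 := by nlinarith
  refine ⟨fun r => pow_eq_zero_iff two_ne_zero |>.1 ((sum_eq_zero_iff_of_nonneg fun _ _ => sq_nonneg _).1 S r (mem_univ r)), ?_⟩
  rw [S] at e2
  have := (mul_eq_zero.1 (le_antisymm (by linarith) p)).resolve_left (by positivity)
  linarith

theorem flat (n m : ℕ) (g : ℕ → ℕ → ℝ) :
    ∑ l ∈ range (m * n), g (l / n) (l % n) = ∑ i ∈ range m, ∑ j ∈ range n, g i j := by
  induction m with
  | zero => simp
  | succ m ih =>
    rw [Nat.succ_mul, sum_range_add, ih, sum_range_succ]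
    congr 1
    refine sum_congr rfl fun j hj => ?_
    have := mem_range.1 hj
    rw [mul_comm, Nat.mul_add_div (by omega), Nat.mul_add_mod, Nat.div_eq_of_lt this, Nat.mod_eq_of_lt this, add_zero]

def co (Q : Bf) (i j : ℕ) : ℤ := (Q.map fun t => if t.2.1 = i ∧ t.2.2 = j then t.1 else 0).sum

theorem val_co {n : ℕ} (Q : Bf) (h : ∀ t ∈ Q, t.2.1 < n ∧ t.2.2 < n) (u v : ℕ → ℝ) :
    ∑ l ∈ range (n * n), (co Q (l / n) (l % n) : ℝ) * (u (l / n) * v (l % n)) = Bf.val Q u v := by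
  rw [flat n n fun i j => (co Q i j : ℝ) * (u i * v j)]
  induction Q with
  | nil => simp [co, Bf.val]
  | cons t Q ih =>
    simp only [List.forall_mem_cons] at h
    simp only [co, Bf.val, List.map_cons, List.sum_cons, Int.cast_add, add_mul, sum_add_distrib] at ih ⊢
    rw [ih h.2, sum_eq_single t.2.1, sum_eq_single t.2.2] <;> simp +contextual [h.1, eq_comm]

def rows (a : List Unit × List Bf) : List Bf :=
  a.2 ++ (List.range a.1.length ×ˢ List.range a.1.length).map fun p => [(1, p.1, p.2), (-1, p.2, p.1)]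

def cc (a : List Unit × List Bf) : ℕ :=
  1 + ((rows a).map fun Q => ((List.range (a.1.length * a.1.length)).map fun l =>
    (co Q (l / a.1.length) (l % a.1.length)).natAbs * (co Q (l / a.1.length) (l % a.1.length)).natAbs).sum).sum

def tf (a : List Unit × List Bf) (i j k : ℕ) : ℤ :=
  if i < a.1.length ∧ j < a.1.length then (if i * a.1.length + j = k then (cc a : ℤ) else 0) -
    ((rows a).map fun Q => co Q i j * co Q (k / a.1.length) (k % a.1.length)).sum else 0

def ten (a : List Unit × List Bf) : List (List (List ℚ)) :=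
  (List.range (a.1.length * a.1.length)).map fun i => (List.range (a.1.length * a.1.length)).map fun j =>
    (List.range (a.1.length * a.1.length)).map fun k => (tf a i j k : ℚ)

theorem tsv_iff (a) : TSV (ten a) (cc a : ℤ) ↔ ∃ x y z : ℕ → ℝ, ∑ i ∈ range (a.1.length * a.1.length), x i ^ 2 = 1 ∧
    ∑ i ∈ range (a.1.length * a.1.length), y i ^ 2 = 1 ∧ ∑ i ∈ range (a.1.length * a.1.length), z i ^ 2 = 1 ∧
    (∀ i < a.1.length * a.1.length, ∑ j ∈ range (a.1.length * a.1.length), ∑ k ∈ range (a.1.length * a.1.length),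
      (tf a i j k : ℝ) * y j * z k = cc a * x i) ∧
    (∀ j < a.1.length * a.1.length, ∑ i ∈ range (a.1.length * a.1.length), ∑ k ∈ range (a.1.length * a.1.length),
      (tf a i j k : ℝ) * x i * z k = cc a * y j) ∧
    (∀ k < a.1.length * a.1.length, ∑ i ∈ range (a.1.length * a.1.length), ∑ j ∈ range (a.1.length * a.1.length),
      (tf a i j k : ℝ) * x i * y j = cc a * z k) := by
  have hl : (ten a).length = a.1.length * a.1.length := by simp [ten]
  have e : ∀ i j k : Fin (ten a).length, (ent (ten a) i.1 j.1 k.1 : ℝ) = tf a i j k := fun i j k => by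
    simp [ent, ten, i.2.trans_eq hl, j.2.trans_eq hl, k.2.trans_eq hl]
  simp only [TSV, e, ← hl, sum_range, Rat.cast_intCast, Int.cast_natCast]
  constructor
  · rintro ⟨x, y, z, h1, h2, h3, h4, h5, h6⟩
    have q : ∀ (x : Fin (ten a).length → ℝ) (i : Fin (ten a).length), ex x i = x i := fun x i => by simp [ex]
    refine ⟨ex x, ex y, ex z, ?_⟩
    simp only [q]
    exact ⟨h1, h2, h3, fun i hi => (h4 ⟨i, hi⟩).trans (by simp [ex, hi]), fun i hi => (h5 ⟨i, hi⟩).trans (by simp [ex, hi]),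
      fun i hi => (h6 ⟨i, hi⟩).trans (by simp [ex, hi])⟩
  · rintro ⟨x, y, z, h1, h2, h3, h4, h5, h6⟩
    exact ⟨fun i => x i, fun i => y i, fun i => z i, h1, h2, h3, fun i => h4 i i.2, fun i => h5 i i.2, fun i => h6 i i.2⟩

theorem core {n : ℕ} (h0 : 0 < n) (F G : List Bf) (C : ℝ) (T : ℕ → ℕ → ℕ → ℝ)
    (hF : ∀ Q ∈ F, ∀ t ∈ Q, t.2.1 < n ∧ t.2.2 < n) (hG : ∀ Q ∈ G, ∀ t ∈ Q, t.2.1 < n ∧ t.2.2 < n)
    (hC : C = 1 + ∑ r : Fin G.length, ∑ l ∈ range (n * n), (co G[r.1] (l / n) (l % n) : ℝ) * co G[r.1] (l / n) (l % n))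
    (ht : ∀ i j k, T i j k = if i < n ∧ j < n then (if i * n + j = k then C else 0) -
      ∑ r : Fin G.length, (co G[r.1] i j : ℝ) * co G[r.1] (k / n) (k % n) else 0)
    (hA : ∀ u v : ℕ → ℝ, (∀ Q ∈ G, Bf.val Q u v = 0) ↔ (∀ Q ∈ F, Bf.val Q u v = 0) ∧
      ∀ i < n, ∀ j < n, u i * v j = u j * v i) :
    (∃ u : ℕ → ℝ, (∃ i < n, u i ≠ 0) ∧ ∀ Q ∈ F, Bf.val Q u u = 0) ↔ ∃ x y z : ℕ → ℝ, ∑ i ∈ range (n * n), x i ^ 2 = 1 ∧
    ∑ i ∈ range (n * n), y i ^ 2 = 1 ∧ ∑ i ∈ range (n * n), z i ^ 2 = 1 ∧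
    (∀ i < n * n, ∑ j ∈ range (n * n), ∑ k ∈ range (n * n), T i j k * y j * z k = C * x i) ∧
    (∀ j < n * n, ∑ i ∈ range (n * n), ∑ k ∈ range (n * n), T i j k * x i * z k = C * y j) ∧
    (∀ k < n * n, ∑ i ∈ range (n * n), ∑ j ∈ range (n * n), T i j k * x i * y j = C * z k) := by
  have nn : range n ⊆ range (n * n) := range_subset_range.2 (Nat.le_mul_self n)
  have cut : ∀ (f : ℕ → ℝ), ∑ i ∈ range (n * n), (if i < n then f i else 0) = ∑ i ∈ range n, f i := fun f => by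
    rw [← sum_subset nn fun i _ hi => if_neg (by simpa using hi)]
    exact sum_congr rfl fun i hi => if_pos (mem_range.1 hi)
  have dm : ∀ i j, j < n → (i * n + j) / n = i ∧ (i * n + j) % n = j := fun i j hj => by
    rw [mul_comm, Nat.mul_add_div h0, Nat.mul_add_mod, Nat.div_eq_of_lt hj, Nat.mod_eq_of_lt hj]; simp
  have lt2 : ∀ i < n, ∀ j < n, i * n + j < n * n := fun i hi j hj => by nlinarith
  have third : ∀ (x y : ℕ → ℝ), ∀ k < n * n, ∑ i ∈ range (n * n), ∑ j ∈ range (n * n),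
      T i j k * x i * y j = C * (x (k / n) * y (k % n)) - ∑ r : Fin G.length,
          (co G[r.1] (k / n) (k % n) : ℝ) * ∑ l ∈ range (n * n), co G[r.1] (l / n) (l % n) * (x (l / n) * y (l % n)) :=
      fun x y k hk => by
    simp only [ht, ite_and, ite_mul, zero_mul, sum_ite_irrel, sum_const_zero, cut]
    rw [← flat n n fun i j => ((if i * n + j = k then C else 0) - ∑ r : Fin G.length, (co G[r.1] i j : ℝ) *
        co G[r.1] (k / n) (k % n)) * x i * y j]
    simp only [Nat.div_add_mod', sub_mul, sum_sub_distrib, ite_mul, zero_mul, sum_ite_eq', mem_range, hk, if_true,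
      sum_mul, mul_sum, mul_assoc]
    rw [sum_comm]
    congr 1
    exact sum_congr rfl fun r _ => sum_congr rfl fun l _ => by ring
  constructor
  · rintro ⟨u', ⟨i, hi, hu⟩, h⟩
    have p : 0 < ∑ i ∈ range n, u' i ^ 2 := sum_pos' (fun _ _ => sq_nonneg _) ⟨i, mem_range.2 hi, by positivity⟩
    let u : ℕ → ℝ := fun i => if i < n then u' i / √(∑ i ∈ range n, u' i ^ 2) else 0
    have u1 : ∑ i ∈ range n, u i ^ 2 = 1 := by
      rw [sum_congr rfl fun i hi => by rw [show u i = _ from if_pos (mem_range.1 hi), div_pow, Real.sq_sqrt p.le],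
        ← sum_div, div_self p.ne']
    have u2 : ∑ i ∈ range (n * n), u i ^ 2 = 1 := by
      rw [← u1, ← sum_subset nn fun i _ hi => by simp [u, show ¬i < n by simpa using hi]]
    have hu : ∀ r : Fin G.length, ∑ l ∈ range (n * n), (co G[r.1] (l / n) (l % n) : ℝ) * (u (l / n) * u (l % n)) = 0 :=
      fun r => by
      rw [val_co _ (hG _ (List.getElem_mem _))]
      refine (hA u u).2 ⟨fun Q hQ => ?_, fun _ _ _ _ => mul_comm _ _⟩ _ (List.getElem_mem _)
      rw [← val_co _ (hF Q hQ), sum_congr rfl fun l hl => show _ = (co Q (l / n) (l % n) : ℝ) * (u' (l / n) * u' (l % n)) /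
        ∑ i ∈ range n, u' i ^ 2 by
          have a : l / n < n := Nat.div_lt_of_lt_mul (mem_range.1 hl)
          simp only [u, a, Nat.mod_lt l h0, if_true]
          rw [div_mul_div_comm, Real.mul_self_sqrt p.le, ← mul_div_assoc], ← sum_div, val_co _ (hF Q hQ), h Q hQ, zero_div]
    have key : ∀ i j, ∑ k ∈ range (n * n), T i j k * (u (k / n) * u (k % n)) = C * (u i * u j) := fun i j => by
      simp only [ht]
      by_cases c : i < n ∧ j < n
      · simp only [c, and_self, if_true, sub_mul, sum_sub_distrib, ite_mul, zero_mul, sum_ite_eq, mem_range,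
          lt2 i c.1 j c.2, dm i j c.2, sum_mul]
        rw [sum_comm, sum_eq_zero fun r _ => by simp only [mul_assoc]; rw [← mul_sum, hu, mul_zero], sub_zero]
      · have : u i * u j = 0 := by
          simp only [u]; split_ifs <;> simp_all
        simp [c, this]
    refine ⟨u, u, fun l => u (l / n) * u (l % n), u2, u2, ?_, fun i _ => ?_, fun j _ => ?_, fun k hk => ?_⟩
    · simp only [mul_pow]
      rw [flat n n fun i j => u i ^ 2 * u j ^ 2, ← sum_mul_sum, u1, one_mul]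
    · simp only [mul_right_comm _ (u _) (u _ * u _), ← sum_mul, key]
      rw [← mul_one (C * u i), ← u2, mul_sum]
      exact sum_congr rfl fun _ _ => by ring
    · simp only [mul_right_comm _ (u _) (u _ * u _), ← sum_mul, key]
      rw [← mul_one (C * u j), ← u2, mul_sum]
      exact sum_congr rfl fun _ _ => by ring
    · rw [third u u k hk]; simp [hu]
  · rintro ⟨x, y, z, h1, h2, h3, -, -, h6⟩
    have sq2 : ∑ l ∈ range (n * n), (x (l / n) * y (l % n)) ^ 2 = (∑ i ∈ range n, x i ^ 2) * ∑ i ∈ range n, y i ^ 2 := by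
      simp only [mul_pow]
      rw [flat n n fun i j => x i ^ 2 * y j ^ 2, ← sum_mul_sum]
    have a1 := (sum_le_sum_of_subset_of_nonneg nn fun i _ _ => sq_nonneg (x i)).trans_eq h1
    have a2 := (sum_le_sum_of_subset_of_nonneg nn fun i _ _ => sq_nonneg (y i)).trans_eq h2
    obtain ⟨b1, b2⟩ := lin (fun (r : Fin G.length) l => (co G[r.1] (l / n) (l % n) : ℝ)) (n * n)
      (fun l => x (l / n) * y (l % n)) z hC
      (by rw [sq2]; exact mul_le_one₀ a1 (sum_nonneg fun _ _ => sq_nonneg _) a2) h3 fun k hk => by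
        rw [← h6 k hk, third x y k hk]
    obtain ⟨c1, c2⟩ := (hA x y).1 fun Q hQ => by
      obtain ⟨r, hr, rfl⟩ := List.getElem_of_mem hQ
      rw [← val_co _ (hG _ hQ)]; exact b1 ⟨r, hr⟩
    rw [sq2] at b2
    have ne : ∀ w : ℕ → ℝ, ∑ i ∈ range n, w i ^ 2 ≠ 0 → ∃ i < n, w i ≠ 0 := fun w hw => by
      obtain ⟨i, hi, h⟩ := exists_ne_zero_of_sum_ne_zero hw
      exact ⟨i, mem_range.1 hi, by simpa using h⟩
    obtain ⟨j, hj, hy⟩ := ne y fun e => by simp [e] at b2
    refine ⟨x, ne x fun e => by simp [e] at b2, fun Q hQ => mul_left_cancel₀ hy ?_⟩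
    rw [mul_zero, ← mul_zero (x j), ← c1 Q hQ, ← val_co _ (hF Q hQ), ← val_co _ (hF Q hQ), mul_sum, mul_sum]
    exact sum_congr rfl fun l _ => by linear_combination (co Q (l / n) (l % n) : ℝ) * x (l / n) * c2 _ (Nat.mod_lt l h0) j hj

theorem red_iff (N : List Unit) (F : List Bf) (h0 : 0 < N.length) (hF : ∀ Q ∈ F, ∀ t ∈ Q, t.2.1 < N.length ∧ t.2.2 < N.length) :
    (∃ u : ℕ → ℝ, (∃ i < N.length, u i ≠ 0) ∧ ∀ Q ∈ F, Bf.val Q u u = 0) ↔ TSV (ten (N, F)) (cc (N, F) : ℤ) := by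
  rw [tsv_iff]
  have hG : ∀ Q ∈ rows (N, F), ∀ t ∈ Q, t.2.1 < N.length ∧ t.2.2 < N.length := by
    simp only [rows, List.forall_mem_append, List.forall_mem_map]
    refine ⟨hF, fun ⟨i, j⟩ hp => ?_⟩
    simp at hp ⊢
    omega
  have hC : (cc (N, F) : ℝ) = 1 + ∑ r : Fin (rows (N, F)).length, ∑ l ∈ range (N.length * N.length),
      (co (rows (N, F))[r.1] (l / N.length) (l % N.length) : ℝ) * co (rows (N, F))[r.1] (l / N.length) (l % N.length) := by
    rw [Fin.sum_univ_fun_getElem (rows (N, F)) fun Q => ∑ l ∈ range (N.length * N.length),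
      (co Q (l / N.length) (l % N.length) : ℝ) * co Q (l / N.length) (l % N.length)]
    simp [cc, Function.comp_def]
    rfl
  have ht : ∀ i j k, (tf (N, F) i j k : ℝ) = if i < N.length ∧ j < N.length then (if i * N.length + j = k then
      (cc (N, F) : ℝ) else 0) - ∑ r : Fin (rows (N, F)).length, (co (rows (N, F))[r.1] i j : ℝ) *
        co (rows (N, F))[r.1] (k / N.length) (k % N.length) else 0 := fun i j k => by
    rw [Fin.sum_univ_fun_getElem (rows (N, F)) fun Q => (co Q i j : ℝ) * co Q (k / N.length) (k % N.length)]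
    simp [tf, Function.comp_def]
  have hA : ∀ u v : ℕ → ℝ, (∀ Q ∈ rows (N, F), Bf.val Q u v = 0) ↔ (∀ Q ∈ F, Bf.val Q u v = 0) ∧
      ∀ i < N.length, ∀ j < N.length, u i * v j = u j * v i := fun u v => by
    simp only [rows, List.forall_mem_append, List.forall_mem_map]
    refine and_congr_right fun _ => ⟨fun h i hi j hj => ?_, fun h ⟨i, j⟩ hp => ?_⟩
    · have := h (i, j) (by simp [hi, hj])
      simp [Bf.val] at this
      linarith
    · simp at hp
      simp [Bf.val, h i hp.1 j hp.2]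
  exact core h0 F _ _ _ hF hG hC ht hA

@[fun_prop] theorem pt_cast {α : Type} [Enc α] {f : α → ℤ} (hf : PT f) : PT fun a => (f a : ℚ) :=
  (PT.pair hf (PT.const (1 : ℕ))).cast fun _ => rfl

theorem ok (a) : Cube (ten a) ∧ (0 : ℚ) < (cc a : ℤ) := ⟨by simp [Cube, ten], by unfold cc; positivity⟩

theorem result : Red ETR fun a : {a : List (List (List ℚ)) × ℚ // Cube a.1 ∧ 0 < a.2} => TSV a.1.1 a.1.2 :=
  etr_of_hom (fun a => ⟨(ten a, (cc a : ℤ)), ok a⟩) (PT.subtype (by unfold ten tf cc rows co; fun_prop) _) red_iff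

end Pool.Agent.Results.MP_acf5a6_lc.Hard
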